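import Pool.Agent.H252R3.Leh.Fac

set_option autoImplicit false

namespace Pool.Agent.H252R3.Leh

open Polynomial

lemma natDegree_pos_of' (f : ℤ[X]) (hf : f.Monic) (hi : Irreducible f) : 1 ≤ f.natDegree := by
  by_contra h
  have h0 : f.natDegree = 0 := by omega
  have h1 : f = 1 := hf.natDegree_eq_zero.mp h0
  exact hi.not_isUnit (h1 ▸ isUnit_one)

lemma c0_ne' (f : ℤ[X]) (hf : f.Monic) (hi : Irreducible f) (hM : 1 < (cx f).mahlerMeasure) :
    f.coeff 0 ≠ 0 := by
  intro h0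
  have h1 : (X : ℤ[X]) ∣ f := X_dvd_iff.mpr h0
  have h2 : Associated (X : ℤ[X]) f := Polynomial.irreducible_X.associated_of_dvd hi h1
  have h3 : (X : ℤ[X]) = f := Polynomial.eq_of_monic_of_associated monic_X hf h2
  rw [← h3] at hM
  have h4 : cx X = (X : ℂ[X]) := by simp [cx]
  rw [h4] at hM
  have h5 : (X : ℂ[X]).mahlerMeasure = 1 := by
    have := mahlerMeasure_X_sub_C (0:ℂ)
    simpa using this
  rw [h5] at hM
  exact lt_irrefl _ hM

lemma R_eq_zero_of_root (f G : ℤ[X]) (hf : f.Monic) (z : ℂ) (hz : z ∈ (cx f).roots)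
    (h : (cx G).eval z = 0) : R f G = 0 := by
  have h1 := R_cast f G hf
  have h2 : ((cx f).roots.map (fun z => (cx G).eval z)).prod = 0 :=
    Multiset.prod_eq_zero (Multiset.mem_map.mpr ⟨z, hz, h⟩)
  rw [h2] at h1
  exact_mod_cast h1

/-- Some power avoids the zeros of `T`. -/
lemma exists_b (f : ℤ[X]) (hf : f.Monic) (hi : Irreducible f) (hM : 1 < (cx f).mahlerMeasure)
    (N : ℕ) (hN : 0 < N) (T : ℤ[X]) (hT : T ≠ 0) (n : ℕ) (hTn : T.natDegree < n) :
    ∃ b : ℕ, 1 ≤ b ∧ b ≤ n ∧ R f (expand ℤ (b * N) T) ≠ 0 := by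
  classical
  by_contra hcon
  push Not at hcon
  have hd1 := natDegree_pos_of' f hf hi
  have hdc : (cx f).degree ≠ 0 := by
    have h1 : (cx f).natDegree = f.natDegree := hf.natDegree_map _
    intro h
    have h2 : (cx f).natDegree = 0 := natDegree_eq_zero_iff_degree_le_zero.mpr h.le
    omega
  obtain ⟨α, hα⟩ := IsAlgClosed.exists_root (cx f) hdc
  have hf0 : cx f ≠ 0 := (hf.map _).ne_zero
  have hαr : α ∈ (cx f).roots := (mem_roots hf0).mpr hα
  have hα0 : α ≠ 0 := by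
    rintro rfl
    apply c0_ne' f hf hi hM
    have h1 : (cx f).eval 0 = ((f.coeff 0 : ℤ) : ℂ) := by
      rw [← coeff_zero_eq_eval_zero, coeff_map]
      simp
    have h2 : (cx f).eval 0 = 0 := hα
    rw [h2] at h1
    exact_mod_cast h1.symm
  have hαK : ∀ K : ℕ, 0 < K → α ^ K ≠ 1 := by
    intro K hK h1
    apply R_cyc_ne_zero f hf hi hM K hK
    apply R_eq_zero_of_root f _ hf α hαr
    simp [cx, cyc, h1]
  have hroot : ∀ b ∈ Finset.Icc 1 n, α ^ (b * N) ∈ (cx T).roots.toFinset := by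
    intro b hb
    rw [Finset.mem_Icc] at hb
    have hbN : 0 < b * N := by
      have := hb.1
      positivity
    have hE0 : expand ℤ (b * N) T ≠ 0 := (expand_ne_zero hbN).mpr hT
    have h1 : f ∣ expand ℤ (b * N) T := by
      by_contra h2
      exact R_ne_zero f _ hf hi hE0 h2 (hcon b hb.1 hb.2)
    have h2 : cx f ∣ cx (expand ℤ (b * N) T) := Polynomial.map_dvd _ h1
    have h3 : (cx (expand ℤ (b * N) T)).eval α = 0 := IsRoot.dvd hα h2
    rw [cx, map_expand, expand_eval] at h3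
    rw [Multiset.mem_toFinset, mem_roots]
    · exact h3
    · exact (Polynomial.map_ne_zero_iff (RingHom.injective_int _)).mpr hT
  have hinj : Set.InjOn (fun b : ℕ => α ^ (b * N)) (Finset.Icc 1 n : Finset ℕ) := by
    have key : ∀ b c : ℕ, b < c → α ^ (b * N) ≠ α ^ (c * N) := by
      intro b c hbc h
      have h1 : α ^ (c * N) = α ^ (b * N) * α ^ ((c - b) * N) := by
        rw [← pow_add]
        congr 1
        rw [← Nat.add_mul]
        congr 1
        omega
      rw [h1] at h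
      have h2 : α ^ ((c - b) * N) = 1 := by
        have h3 : α ^ (b * N) ≠ 0 := pow_ne_zero _ hα0
        have h4 : α ^ (b * N) * 1 = α ^ (b * N) * α ^ ((c - b) * N) := by
          rw [mul_one]; exact h
        exact (mul_left_cancel₀ h3 h4).symm
      apply hαK ((c - b) * N) _ h2
      have : 0 < c - b := by omega
      positivity
    intro b _ c _ h
    rcases lt_trichotomy b c with h1 | h1 | h1
    · exact absurd h (key b c h1)
    · exact h1
    · exact absurd h.symm (key c b h1)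
  have hcard := Finset.card_le_card_of_injOn _ hroot hinj
  rw [Nat.card_Icc] at hcard
  have h1 : (cx T).roots.toFinset.card ≤ T.natDegree := by
    calc (cx T).roots.toFinset.card ≤ Multiset.card (cx T).roots := Multiset.toFinset_card_le _
      _ ≤ (cx T).natDegree := card_roots' _
      _ ≤ T.natDegree := natDegree_map_le
  omega

lemma num_ineq (z : ℝ) (hz : 20 ≤ z) : 4 * ((5 / 2) * Real.log z) + 1 ≤ 20 * z ^ ((1:ℝ) / 4) - 1 := by
  have hz0 : 0 < z := by linarith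
  set w : ℝ := z ^ ((1:ℝ) / 4) with hw
  have hw0 : 0 < w := by positivity
  have h1 : Real.log z = 4 * Real.log w := by
    rw [hw, Real.log_rpow hz0]; ring
  have h2 : Real.log (w / 2) ≤ w / 2 - 1 := Real.log_le_sub_one_of_pos (by positivity)
  rw [Real.log_div hw0.ne' (by norm_num)] at h2
  have h3 : Real.log 2 < 0.7 := by
    have := Real.log_two_lt_d9
    linarith
  rw [h1]
  linarith

/-- The explicit inequality, monic case. -/
theorem main_monic (p : ℕ) [Fact p.Prime] (f : ℤ[X]) (hf : f.Monic) (hi : Irreducible f)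
    (hM : 1 < (cx f).mahlerMeasure) (N : ℕ) (hN : 0 < N) (H : (ZMod p)[X])
    (h1 : H ∣ f.map (Int.castRingHom (ZMod p))) (h2 : H ∣ (X ^ N - 1 : (ZMod p)[X]))
    (lam : ℝ) (hl0 : 0 < lam) (hl1 : lam ≤ 1) (hl : lam * f.natDegree ≤ H.natDegree * Real.log p) :
    (lam / 20) ^ 5 * f.natDegree ≤ N * Real.log (cx f).mahlerMeasure := by
  have hp : p.Prime := Fact.out
  have hp1 : (1:ℝ) < p := by exact_mod_cast hp.one_lt
  have hp0 : (0:ℝ) < p := by linarith
  have hlp : 0 < Real.log p := Real.log_pos hp1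
  set M := (cx f).mahlerMeasure with hMdef
  have hM0 : 0 < M := by linarith
  have hlM : 0 < Real.log M := Real.log_pos hM
  set d := f.natDegree with hd
  have hd1 : 1 ≤ d := natDegree_pos_of' f hf hi
  have hd0 : (0:ℝ) < d := by exact_mod_cast hd1
  set z : ℝ := 20 / lam with hz
  have hz20 : 20 ≤ z := by
    rw [hz, le_div_iff₀ hl0]; linarith
  have hz0 : 0 < z := by linarith
  set n : ℕ := ⌊z ^ ((5:ℝ) / 2)⌋₊ with hn
  have hnle : (n:ℝ) ≤ z ^ ((5:ℝ) / 2) := Nat.floor_le (by positivity)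
  have hnlt : z ^ ((5:ℝ) / 2) < n + 1 := Nat.lt_floor_add_one _
  have hn20 : 20 ≤ n := by
    rw [hn, Nat.le_floor_iff (by positivity)]
    push_cast
    calc (20:ℝ) ≤ z := hz20
      _ = z ^ (1:ℝ) := (Real.rpow_one z).symm
      _ ≤ z ^ ((5:ℝ) / 2) := Real.rpow_le_rpow_of_exponent_le (by linarith) (by norm_num)
  have hn0 : (0:ℝ) < n := by
    have : 0 < n := by omega
    exact_mod_cast this
  set s : ℕ := Nat.sqrt n with hs
  have hs1 : s * s ≤ n := Nat.sqrt_le n
  have hs2 : n < (s + 1) * (s + 1) := Nat.lt_succ_sqrt n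
  have hs4 : 4 ≤ s := by
    rw [hs, Nat.le_sqrt]
    omega
  have hsn : s < n := by nlinarith
  have hsn' : (s:ℝ) < n := by exact_mod_cast hsn
  obtain ⟨T, hT0, hTd, hTdvd, hTc⟩ := siegel s n (by omega) hsn
  obtain ⟨b, hb1, hbn, hR⟩ := exists_b f hf hi hM N hN T hT0 n hTd
  obtain ⟨U, hU⟩ := hTdvd
  have hE : expand ℤ (b * N) T = (cyc (b * N)) ^ s * expand ℤ (b * N) U := by
    rw [hU, map_mul, map_pow]
    congr 2
    simp [cyc]
  have h4 : (p : ℤ) ^ (s * H.natDegree) ∣ R f (expand ℤ (b * N) T) := by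
    rw [hE, R_mul f _ _ hf, R_pow f _ hf, mul_comm s, pow_mul]
    apply Dvd.dvd.mul_right
    apply pow_dvd_pow_of_dvd
    apply pow_dvd_R p f _ hf H h1
    have h5 : (X ^ N - 1 : (ZMod p)[X]) ∣ X ^ (b * N) - 1 := by
      rw [mul_comm b, pow_mul]
      simpa using sub_dvd_pow_sub_pow ((X : (ZMod p)[X]) ^ N) 1 b
    simpa [cyc] using h2.trans h5
  have h5 := Int.le_of_dvd (abs_pos.mpr hR) ((dvd_abs _ _).mpr h4)
  have h6 := R_le f (expand ℤ (b * N) T) hf
    ((n : ℝ) * ((n : ℝ) * (n : ℝ) ^ s) ^ ((s : ℝ) / ((n : ℝ) - s))) (by positivity)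
    (b * N * (n - 1))
    (expand_bound T n (b * N) hTd _ hTc (b * N * (n - 1)) le_rfl)
  have h7 : ((p : ℝ) ^ (s * H.natDegree)) ≤ |(R f (expand ℤ (b * N) T) : ℝ)| := by
    exact_mod_cast h5
  have hexp : ((n : ℝ) * (n : ℝ) ^ s) ^ ((s : ℝ) / ((n : ℝ) - s)) ≤ (n:ℝ) ^ 3 := by
    have h3 : (n : ℝ) * (n : ℝ) ^ s = (n:ℝ) ^ ((s + 1 : ℕ) : ℝ) := by
      rw [Real.rpow_natCast, pow_succ]
      ring
    rw [h3, ← Real.rpow_mul hn0.le, ← Real.rpow_natCast]
    apply Real.rpow_le_rpow_of_exponent_le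
    · have : 1 ≤ n := by omega
      exact_mod_cast this
    · have h4 : (0:ℝ) < (n:ℝ) - s := by linarith
      rw [mul_div_assoc', div_le_iff₀ h4]
      have h5 : (s:ℝ) * s ≤ n := by exact_mod_cast hs1
      have h6 : (4:ℝ) ≤ s := by exact_mod_cast hs4
      push_cast
      nlinarith
  have h8 : (p : ℝ) ^ (s * H.natDegree) ≤ ((n:ℝ) ^ 4) ^ d * M ^ (N * n ^ 2) := by
    refine (h7.trans h6).trans ?_
    have h9 : (n : ℝ) * ((n : ℝ) * (n : ℝ) ^ s) ^ ((s : ℝ) / ((n : ℝ) - s)) ≤ (n:ℝ) ^ 4 := by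
      calc (n : ℝ) * ((n : ℝ) * (n : ℝ) ^ s) ^ ((s : ℝ) / ((n : ℝ) - s)) ≤ n * n ^ 3 := by gcongr
        _ = (n:ℝ) ^ 4 := by ring
    have h10 : b * N * (n - 1) ≤ N * n ^ 2 := by
      calc b * N * (n - 1) ≤ n * N * n := by
            apply Nat.mul_le_mul
            · exact Nat.mul_le_mul_right _ hbn
            · omega
        _ = N * n ^ 2 := by ring
    have h11 : M ^ (b * N * (n - 1)) ≤ M ^ (N * n ^ 2) := pow_le_pow_right₀ hM.le h10
    gcongr
  have h9 : (s * H.natDegree : ℝ) * Real.log p ≤ d * (4 * Real.log n) + N * n ^ 2 * Real.log M := by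
    have h10 := Real.log_le_log (by positivity) h8
    rw [Real.log_pow, Real.log_mul (by positivity) (by positivity), Real.log_pow, Real.log_pow,
      Real.log_pow] at h10
    push_cast at h10
    linarith
  -- numerical part
  have hlogn : Real.log n ≤ (5 / 2) * Real.log z := by
    rw [← Real.log_rpow hz0]
    exact Real.log_le_log hn0 hnle
  have hs3 : z ^ ((5:ℝ) / 4) ≤ s + 1 := by
    have h10 : (z ^ ((5:ℝ) / 4)) ^ 2 = z ^ ((5:ℝ) / 2) := by
      rw [← Real.rpow_natCast, ← Real.rpow_mul hz0.le]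
      norm_num
    have h11 : (z ^ ((5:ℝ) / 4)) ^ 2 ≤ ((s:ℝ) + 1) ^ 2 := by
      rw [h10]
      have h12 : (n:ℝ) + 1 ≤ (s + 1) * (s + 1) := by exact_mod_cast hs2
      nlinarith
    exact le_of_sq_le_sq h11 (by positivity)
  have hslam : 4 * Real.log n + 1 ≤ s * lam := by
    have h10 : (z ^ ((5:ℝ) / 4) - 1) * lam ≤ s * lam := by
      have : z ^ ((5:ℝ) / 4) - 1 ≤ s := by linarith
      gcongr
    have h11 : z ^ ((5:ℝ) / 4) * lam = 20 * z ^ ((1:ℝ) / 4) := by
      have h12 : z ^ ((5:ℝ) / 4) = z * z ^ ((1:ℝ) / 4) := by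
        rw [show (5:ℝ) / 4 = 1 + 1 / 4 by norm_num, Real.rpow_add hz0, Real.rpow_one]
      have h13 : z * lam = 20 := by
        rw [hz]; field_simp
      rw [h12]
      calc z * z ^ ((1:ℝ) / 4) * lam = (z * lam) * z ^ ((1:ℝ) / 4) := by ring
        _ = _ := by rw [h13]
    have h12 := num_ineq z hz20
    calc 4 * Real.log n + 1 ≤ 4 * ((5 / 2) * Real.log z) + 1 := by linarith
      _ ≤ 20 * z ^ ((1:ℝ) / 4) - 1 := h12
      _ ≤ 20 * z ^ ((1:ℝ) / 4) - lam := by linarith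
      _ = (z ^ ((5:ℝ) / 4) - 1) * lam := by rw [sub_mul, h11, one_mul]
      _ ≤ _ := h10
  have h10 : (d:ℝ) ≤ N * n ^ 2 * Real.log M := by
    have h11 : (s:ℝ) * (lam * d) ≤ s * (H.natDegree * Real.log p) := by gcongr
    have h12 : (4 * Real.log n + 1) * d ≤ (s * lam) * d := by gcongr
    nlinarith
  have h11 : (n:ℝ) ^ 2 ≤ z ^ 5 := by
    have h12 : (z ^ ((5:ℝ) / 2)) ^ 2 = z ^ 5 := by
      rw [← Real.rpow_natCast, ← Real.rpow_mul hz0.le]
      norm_num
    rw [← h12]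
    gcongr
  have h12 : (d:ℝ) ≤ N * z ^ 5 * Real.log M := by
    refine h10.trans ?_
    gcongr
  have h13 : (lam / 20) ^ 5 * z ^ 5 = 1 := by
    rw [← mul_pow, hz]
    have : lam / 20 * (20 / lam) = 1 := by field_simp
    rw [this, one_pow]
  calc (lam / 20) ^ 5 * d ≤ (lam / 20) ^ 5 * (N * z ^ 5 * Real.log M) := by gcongr
    _ = ((lam / 20) ^ 5 * z ^ 5) * (N * Real.log M) := by ring
    _ = _ := by rw [h13, one_mul]

end Pool.Agent.H252R3.Leh
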