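import Pool.Agent.H252R3.Leh.Sieg

set_option autoImplicit false

namespace Pool.Agent.H252R3.Leh

open Polynomial UniqueFactorizationMonoid

variable (p : ℕ) [Fact p.Prime]

/-- the multiset of the monic irreducible factors -/
noncomputable abbrev fac (g : (ZMod p)[X]) : Multiset (ZMod p)[X] := normalizedFactors g

lemma fac_irr (g h : (ZMod p)[X]) (hh : h ∈ fac p g) : Irreducible h :=
  irreducible_of_normalized_factor h hh

lemma fac_monic (g h : (ZMod p)[X]) (hh : h ∈ fac p g) : h.Monic := by
  have h1 := normalize_normalized_factor h hh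
  have h0 : h ≠ 0 := (fac_irr p g h hh).ne_zero
  rw [← h1]
  exact Polynomial.monic_normalize h0

lemma fac_natDegree_pos (g h : (ZMod p)[X]) (hh : h ∈ fac p g) : 1 ≤ h.natDegree :=
  (fac_irr p g h hh).natDegree_pos

lemma fac_prod (g : (ZMod p)[X]) (hg : g.Monic) : (fac p g).prod = g := by
  have h1 := prod_normalizedFactors_eq hg.ne_zero
  rw [h1, hg.normalize_eq_self]

lemma fac_sum (g : (ZMod p)[X]) (hg : g.Monic) : ((fac p g).map natDegree).sum = g.natDegree := by
  rw [← natDegree_multiset_prod_of_monic _ (fun h hh => fac_monic p g h hh), fac_prod p g hg]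

lemma irr_dvd (i : ℕ) (h : (ZMod p)[X]) (hh : Irreducible h) (hd : h.natDegree = i)
    (hX : ¬ h ∣ X) : h ∣ X ^ (p ^ i - 1) - 1 := by
  have hp : p.Prime := Fact.out
  have h1 : h ∣ X ^ (Nat.card (ZMod p)) ^ i - X :=
    (hh.natDegree_dvd_iff_dvd_X_pow_card_pow_sub_X).mp (by rw [hd])
  rw [Nat.card_zmod] at h1
  have h2 : (X ^ p ^ i - X : (ZMod p)[X]) = X * (X ^ (p ^ i - 1) - 1) := by
    have hpi : 0 < p ^ i := pow_pos hp.pos i
    rw [mul_sub, mul_one, ← pow_succ', Nat.sub_add_cancel hpi]
  rw [h2] at h1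
  rcases hh.prime.dvd_or_dvd h1 with h3 | h3
  · exact absurd h3 hX
  · exact h3

/-- number of factors of degree `i` -/
noncomputable def nf (g : (ZMod p)[X]) (i : ℕ) : ℕ :=
  Multiset.card ((fac p g).filter (fun h => h.natDegree = i))

lemma exists_H (g : (ZMod p)[X]) (hg : g.Monic) (h0 : g.coeff 0 ≠ 0) (e k i : ℕ)
    (he : ∀ h, (fac p g).count h ≤ e) (hk : e ≤ p ^ k) :
    ∃ H : (ZMod p)[X], H ∣ g ∧ H ∣ X ^ ((p ^ i - 1) * p ^ k) - 1 ∧
      H.natDegree = i * nf p g i := by
  classical
  set F := (fac p g).filter (fun h => h.natDegree = i) with hF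
  have hFF : F ≤ fac p g := Multiset.filter_le _ _
  have hmem : ∀ h ∈ F, h ∈ fac p g ∧ h.natDegree = i := by
    intro h hh
    exact Multiset.mem_filter.mp hh
  refine ⟨F.prod, ?_, ?_, ?_⟩
  · conv_rhs => rw [← fac_prod p g hg]
    exact Multiset.prod_dvd_prod_of_le hFF
  · rw [Finset.prod_multiset_count]
    apply Finset.prod_dvd_of_coprime
    · intro a ha b hb hab
      have ha' := (hmem a (by simpa using ha)).1
      have hb' := (hmem b (by simpa using hb)).1
      have hia := fac_irr p g a ha'
      have hib := fac_irr p g b hb'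
      have hcop : IsCoprime a b := by
        rw [Irreducible.coprime_iff_not_dvd hia]
        intro hdvd
        apply hab
        have hass : Associated a b := hia.associated_of_dvd hib hdvd
        have := Polynomial.eq_of_monic_of_associated (fac_monic p g a ha') (fac_monic p g b hb') hass
        exact this
      exact hcop.pow
    · intro a ha
      have ha' := hmem a (by simpa using ha)
      have hia := fac_irr p g a ha'.1
      have hX : ¬ a ∣ X := by
        intro hX
        apply h0
        have h2 : a ∣ g := dvd_of_mem_normalizedFactors ha'.1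
        have hass : Associated a X := hia.associated_of_dvd Polynomial.irreducible_X hX
        have h3 : (X : (ZMod p)[X]) ∣ g := hass.symm.dvd.trans h2
        exact X_dvd_iff.mp h3
      have h3 := irr_dvd p i a hia ha'.2 hX
      have h4 : (X ^ ((p ^ i - 1) * p ^ k) - 1 : (ZMod p)[X]) = (X ^ (p ^ i - 1) - 1) ^ (p ^ k) := by
        rw [sub_pow_char_pow, one_pow, ← pow_mul]
      rw [h4]
      refine (pow_dvd_pow_of_dvd h3 _).trans (pow_dvd_pow _ ?_)
      exact ((Multiset.count_le_of_le a hFF).trans (he a)).trans hk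
  · rw [natDegree_multiset_prod_of_monic _ (fun h hh => fac_monic p g h (hmem h hh).1)]
    have h1 : F.map natDegree = Multiset.replicate (Multiset.card F) i := by
      rw [Multiset.eq_replicate]
      refine ⟨Multiset.card_map _ _, ?_⟩
      intro b hb
      obtain ⟨a, ha, rfl⟩ := Multiset.mem_map.mp hb
      exact (hmem a ha).2
    rw [h1, Multiset.sum_replicate, smul_eq_mul, mul_comm]
    rfl

lemma card_high (g : (ZMod p)[X]) (hg : g.Monic) (I : ℕ) :
    Multiset.card ((fac p g).filter (fun h => ¬ h.natDegree ≤ I)) * (I + 1) ≤ g.natDegree := by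
  rw [← fac_sum p g hg]
  generalize fac p g = F
  induction F using Multiset.induction_on with
  | empty => simp
  | cons a s ih =>
    rw [Multiset.map_cons, Multiset.sum_cons]
    by_cases h : ¬ a.natDegree ≤ I
    · rw [Multiset.filter_cons_of_pos (p := fun h : (ZMod p)[X] => ¬ h.natDegree ≤ I) s h, Multiset.card_cons]
      have : I + 1 ≤ a.natDegree := by omega
      calc (Multiset.card (Multiset.filter (fun h => ¬ h.natDegree ≤ I) s) + 1) * (I + 1)
          = Multiset.card (Multiset.filter (fun h => ¬ h.natDegree ≤ I) s) * (I + 1) + (I + 1) := by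
            ring
        _ ≤ _ := by omega
    · rw [Multiset.filter_cons_of_neg (p := fun h : (ZMod p)[X] => ¬ h.natDegree ≤ I) s h]
      omega

lemma card_low (g : (ZMod p)[X]) (I : ℕ) :
    Multiset.card ((fac p g).filter (fun h => h.natDegree ≤ I))
      = ∑ i ∈ Finset.Icc 1 I, nf p g i := by
  have hpos : ∀ h ∈ fac p g, 1 ≤ h.natDegree := fun h hh => fac_natDegree_pos p g h hh
  unfold nf
  revert hpos
  generalize fac p g = F
  induction F using Multiset.induction_on with
  | empty => intro _; simp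
  | cons a s ih =>
    intro hpos
    have ih' := ih (fun h hh => hpos h (Multiset.mem_cons_of_mem hh))
    have ha := hpos a (Multiset.mem_cons_self a s)
    have hstep : ∀ i, Multiset.card (Multiset.filter (fun h => h.natDegree = i) (a ::ₘ s))
        = Multiset.card (Multiset.filter (fun h => h.natDegree = i) s)
          + (if a.natDegree = i then 1 else 0) := by
      intro i
      by_cases h : a.natDegree = i
      · rw [Multiset.filter_cons_of_pos s h, Multiset.card_cons, if_pos h]
      · rw [Multiset.filter_cons_of_neg s h, if_neg h, add_zero]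
    simp only [hstep]
    rw [Finset.sum_add_distrib, ← ih', Finset.sum_ite_eq]
    by_cases h : a.natDegree ≤ I
    · rw [Multiset.filter_cons_of_pos s h, Multiset.card_cons,
        if_pos (Finset.mem_Icc.mpr ⟨ha, h⟩)]
    · rw [Multiset.filter_cons_of_neg s h, if_neg (fun h2 => h (Finset.mem_Icc.mp h2).2), add_zero]

lemma exists_good (g : (ZMod p)[X]) (hg : g.Monic) (h0 : g.coeff 0 ≠ 0) (e k I : ℕ) (hI : 1 ≤ I)
    (he : ∀ h, (fac p g).count h ≤ e) (hk : e ≤ p ^ k) :
    ∃ i, 1 ≤ i ∧ i ≤ I ∧ ∃ H : (ZMod p)[X], H ∣ g ∧ H ∣ X ^ ((p ^ i - 1) * p ^ k) - 1 ∧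
      ((Multiset.card (fac p g) : ℝ) - g.natDegree / (I + 1)) ≤ I * H.natDegree := by
  have h1 : Multiset.card (fac p g)
      = Multiset.card ((fac p g).filter (fun h => h.natDegree ≤ I))
        + Multiset.card ((fac p g).filter (fun h => ¬ h.natDegree ≤ I)) := by
    rw [← Multiset.card_add, Multiset.filter_add_not]
  have h2 := card_high p g hg I
  have h3 := card_low p g I
  obtain ⟨i, hi, hmax⟩ := Finset.exists_max_image (Finset.Icc 1 I) (nf p g)
    ⟨1, Finset.mem_Icc.mpr ⟨le_rfl, hI⟩⟩
  rw [Finset.mem_Icc] at hi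
  have h4 : ∑ i ∈ Finset.Icc 1 I, nf p g i ≤ I * nf p g i := by
    calc ∑ j ∈ Finset.Icc 1 I, nf p g j ≤ ∑ j ∈ Finset.Icc 1 I, nf p g i :=
          Finset.sum_le_sum hmax
      _ = I * nf p g i := by simp
  obtain ⟨H, hH1, hH2, hH3⟩ := exists_H p g hg h0 e k i he hk
  refine ⟨i, hi.1, hi.2, H, hH1, hH2, ?_⟩
  have h5 : ((Multiset.card ((fac p g).filter (fun h => ¬ h.natDegree ≤ I)) : ℕ) : ℝ)
      ≤ g.natDegree / (I + 1) := by
    rw [le_div_iff₀ (by positivity)]
    exact_mod_cast h2
  have h6 : ((∑ i ∈ Finset.Icc 1 I, nf p g i : ℕ) : ℝ) ≤ I * nf p g i := by exact_mod_cast h4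
  have h7 : (I : ℝ) * nf p g i ≤ I * H.natDegree := by
    have : nf p g i ≤ H.natDegree := by
      rw [hH3]
      exact Nat.le_mul_of_pos_left _ hi.1
    have h8 : (nf p g i : ℝ) ≤ H.natDegree := by exact_mod_cast this
    gcongr
  rw [h1, h3]
  push_cast at h6 ⊢
  linarith

end Pool.Agent.H252R3.Leh
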