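import Pool.Agent.H252R3.Leh.Exp

set_option autoImplicit false

namespace Pool.Agent.H252R3.Leh

open Polynomial UniqueFactorizationMonoid Filter Topology

variable (p : ℕ) [Fact p.Prime]

lemma exists_pow (e : ℕ) (he : 1 ≤ e) : ∃ k : ℕ, e ≤ p ^ k ∧ p ^ k ≤ p * e := by
  have hp : p.Prime := Fact.out
  refine ⟨Nat.clog p e, Nat.le_pow_clog hp.one_lt e, ?_⟩
  rcases Nat.lt_or_ge 1 e with h | h
  · have h1 := Nat.pow_pred_clog_lt_self hp.one_lt h
    have h2 : 0 < Nat.clog p e := Nat.clog_pos hp.one_lt h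
    have h3 : p ^ Nat.clog p e = p * p ^ (Nat.clog p e).pred := by
      have h4 : (Nat.clog p e).pred + 1 = Nat.clog p e := Nat.succ_pred_eq_of_pos h2
      rw [← pow_succ', h4]
    rw [h3]
    exact Nat.mul_le_mul_left p h1.le
  · have : e = 1 := by omega
    subst this
    simp [hp.one_le]


lemma mahler_neg (f : ℤ[X]) : (cx (-f)).mahlerMeasure = (cx f).mahlerMeasure := by
  have h : cx (-f) = C (-1) * cx f := by
    simp [cx]
  rw [h, mahlerMeasure_mul, mahlerMeasure_const]
  simp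

lemma fac_neg (g : (ZMod p)[X]) : fac p (-g) = fac p g := by
  by_cases hg : g = 0
  · subst hg; simp
  have h1 : Associated (-g) g := by
    rw [← neg_one_mul]
    exact associated_unit_mul_left g (-1) isUnit_one.neg
  exact (associated_iff_normalizedFactors_eq_normalizedFactors (neg_ne_zero.mpr hg) hg).mp h1

lemma lc_cases (f : ℤ[X]) (hf0 : f ≠ 0) (hM : (cx f).mahlerMeasure < 2) :
    f.leadingCoeff = 1 ∨ f.leadingCoeff = -1 := by
  have h1 := leadingCoeff_le_mahlerMeasure (cx f)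
  have h2 : (cx f).leadingCoeff = ((f.leadingCoeff : ℤ) : ℂ) := by
    rw [cx, leadingCoeff_map_of_injective (RingHom.injective_int _)]
    simp
  rw [h2, Complex.norm_intCast] at h1
  have h3 : |(f.leadingCoeff : ℝ)| < 2 := lt_of_le_of_lt h1 hM
  have h4 : |f.leadingCoeff| < 2 := by exact_mod_cast h3
  have h5 : f.leadingCoeff ≠ 0 := leadingCoeff_ne_zero.mpr hf0
  rw [abs_lt] at h4
  omega

lemma c0_le (f : ℤ[X]) (hM : (cx f).mahlerMeasure < 2) : |f.coeff 0| < 2 := by
  have h1 := norm_coeff_le_choose_mul_mahlerMeasure 0 (cx f)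
  rw [Nat.choose_zero_right] at h1
  have h2 : (cx f).coeff 0 = ((f.coeff 0 : ℤ) : ℂ) := by simp [cx]
  rw [h2, Complex.norm_intCast] at h1
  have h3 : |(f.coeff 0 : ℝ)| < 2 := by
    have : ((1 : ℕ) : ℝ) * (cx f).mahlerMeasure = (cx f).mahlerMeasure := by simp
    linarith
  exact_mod_cast h3

lemma c0_ne (f : ℤ[X]) (hf : f.Monic) (hi : Irreducible f) (hM : 1 < (cx f).mahlerMeasure) :
    f.coeff 0 ≠ 0 := by
  intro h0
  have h1 : (X : ℤ[X]) ∣ f := X_dvd_iff.mpr h0
  have h2 : Associated (X : ℤ[X]) f := Polynomial.irreducible_X.associated_of_dvd hi h1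
  have h3 : (X : ℤ[X]) = f := Polynomial.eq_of_monic_of_associated monic_X hf h2
  rw [← h3] at hM
  have h4 : cx X = (X : ℂ[X]) := by simp [cx]
  rw [h4] at hM
  have h5 : (X : ℂ[X]).mahlerMeasure = 1 := by
    have := mahlerMeasure_X_sub_C (0:ℂ)
    simpa using this
  rw [h5] at hM
  exact lt_irrefl _ hM

/-- Reduction to the monic case with unit constant coefficient. -/
lemma reduce (f : ℤ[X]) (hi : Irreducible f) (hM : 1 < (cx f).mahlerMeasure)
    (hM2 : (cx f).mahlerMeasure < 2) :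
    ∃ f' : ℤ[X], (f' = f ∨ f' = -f) ∧ f'.Monic ∧ Irreducible f' ∧
      (cx f').mahlerMeasure = (cx f).mahlerMeasure ∧
      (f'.map (Int.castRingHom (ZMod p))).coeff 0 ≠ 0 := by
  have hp : p.Prime := Fact.out
  have key : ∀ f' : ℤ[X], f'.Monic → Irreducible f' → 1 < (cx f').mahlerMeasure →
      (cx f').mahlerMeasure < 2 → (f'.map (Int.castRingHom (ZMod p))).coeff 0 ≠ 0 := by
    intro f' hf' hi' h1 h2
    have h3 := c0_le f' h2
    have h4 := c0_ne f' hf' hi' h1
    rw [coeff_map]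
    have h5 : f'.coeff 0 = 1 ∨ f'.coeff 0 = -1 := by
      rw [abs_lt] at h3
      omega
    rcases h5 with h5 | h5 <;> rw [h5] <;> simp
  rcases lc_cases f hi.ne_zero hM2 with h | h
  · exact ⟨f, Or.inl rfl, h, hi, rfl, key f h hi hM hM2⟩
  · have h1 : (-f).Monic := by
      rw [Monic, leadingCoeff_neg, h]; norm_num
    have h2 : Irreducible (-f) := by
      have : Associated f (-f) := by
        rw [← neg_one_mul f]
        exact (associated_unit_mul_left f (-1) isUnit_one.neg).symm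
      exact this.irreducible hi
    refine ⟨-f, Or.inr rfl, h1, h2, mahler_neg f, key _ h1 h2 ?_ ?_⟩
    · rw [mahler_neg]; exact hM
    · rw [mahler_neg]; exact hM2

lemma red_fac (f f' : ℤ[X]) (h : f' = f ∨ f' = -f) :
    fac p (f'.map (Int.castRingHom (ZMod p))) = fac p (f.map (Int.castRingHom (ZMod p))) := by
  rcases h with rfl | rfl
  · rfl
  · rw [Polynomial.map_neg, fac_neg]

lemma red_deg (f f' : ℤ[X]) (h : f' = f ∨ f' = -f) : f'.natDegree = f.natDegree := by
  rcases h with rfl | rfl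
  · rfl
  · exact natDegree_neg f

lemma card_fac_le' (g : (ZMod p)[X]) : Multiset.card (fac p g) ≤ g.natDegree := by
  by_cases hg : g = 0
  · subst hg; simp
  have h0 : ((fac p g).map natDegree).sum = g.natDegree := by
    rw [← natDegree_multiset_prod_of_monic _ (fun h hh => fac_monic p g h hh)]
    exact natDegree_eq_of_degree_eq
      (degree_eq_degree_of_associated (prod_normalizedFactors hg))
  rw [← h0]
  have h1 : ∀ x ∈ (fac p g).map natDegree, 1 ≤ x := by
    intro x hx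
    obtain ⟨h, hh, rfl⟩ := Multiset.mem_map.mp hx
    exact fac_natDegree_pos p g h hh
  have := Multiset.card_nsmul_le_sum h1
  simpa using this

/-- Lower bound in terms of the number of irreducible factors modulo `p`. -/
theorem factor_bound (f : ℤ[X]) (hi : Irreducible f) (hM : 1 < (cx f).mahlerMeasure) :
    (((Multiset.card (fac p (f.map (Int.castRingHom (ZMod p)))) : ℝ) / f.natDegree) ^ 2 / 180) ^ 5 *
      (p : ℝ) ^ (-(2 * (f.natDegree : ℝ) /
        (Multiset.card (fac p (f.map (Int.castRingHom (ZMod p)))) : ℝ)) - 2)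
      ≤ Real.log (cx f).mahlerMeasure := by
  have hp : p.Prime := Fact.out
  have hp1 : (1:ℝ) < p := by exact_mod_cast hp.one_lt
  have hp2 : (2:ℝ) ≤ p := by exact_mod_cast hp.two_le
  have hp0 : (0:ℝ) < p := by linarith
  have hlogM : 0 < Real.log (cx f).mahlerMeasure := Real.log_pos hM
  set r : ℕ := Multiset.card (fac p (f.map (Int.castRingHom (ZMod p)))) with hr
  set d : ℕ := f.natDegree with hd
  have hrd : r ≤ d := (card_fac_le' p _).trans natDegree_map_le
  rcases Nat.eq_zero_or_pos r with h0 | hr0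
  · rw [h0]
    simp only [Nat.cast_zero, zero_div]
    norm_num
    exact hlogM.le
  have hd0 : 0 < d := lt_of_lt_of_le hr0 hrd
  have hr0' : (0:ℝ) < r := by exact_mod_cast hr0
  have hd0' : (0:ℝ) < d := by exact_mod_cast hd0
  have hrd' : (r:ℝ) ≤ d := by exact_mod_cast hrd
  set θ : ℝ := (r:ℝ) / d with hθ
  have hθ0 : 0 < θ := by positivity
  have hθ1 : θ ≤ 1 := by
    rw [hθ, div_le_one hd0']; exact hrd'
  have hexp : -(2 * (d:ℝ) / r) - 2 = -(2 / θ) - 2 := by
    rw [hθ]; field_simp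
  rw [hexp]
  have hθ2 : θ ^ 2 ≤ 1 := by nlinarith
  by_cases h2 : (cx f).mahlerMeasure < 2
  · obtain ⟨f', hf', hm, hi', hMM, hc0⟩ := reduce p f hi hM h2
    rw [← hMM]
    have hM' : 1 < (cx f').mahlerMeasure := by rw [hMM]; exact hM
    have hg : (f'.map (Int.castRingHom (ZMod p))).Monic := hm.map _
    have hdd : f'.natDegree = d := red_deg f f' hf'
    have hgd : (f'.map (Int.castRingHom (ZMod p))).natDegree = d := by
      rw [hm.natDegree_map, hdd]
    have hrr : Multiset.card (fac p (f'.map (Int.castRingHom (ZMod p)))) = r := by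
      rw [red_fac p f f' hf']
    set I : ℕ := ⌈2 / θ⌉₊ with hI
    have hI1 : 1 ≤ I := Nat.one_le_ceil_iff.mpr (by positivity)
    have hIge : 2 / θ ≤ I := Nat.le_ceil _
    have hIlt : (I:ℝ) < 2 / θ + 1 := Nat.ceil_lt_add_one (by positivity)
    have hI0 : (0:ℝ) < I := by exact_mod_cast hI1
    obtain ⟨k, hk1, hk2⟩ := exists_pow p d hd0
    obtain ⟨i, hi1, hi2, H, hH1, hH2, hH3⟩ := exists_good p (f'.map (Int.castRingHom (ZMod p))) hg
      hc0 d k I hI1 (fun h => (Multiset.count_le_card _ _).trans (by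
        have := card_fac_le' p (f'.map (Int.castRingHom (ZMod p)))
        omega)) hk1
    rw [hgd, hrr] at hH3
    have hpi : 2 ≤ p ^ i := by
      calc 2 ≤ p := hp.two_le
        _ = p ^ 1 := (pow_one p).symm
        _ ≤ p ^ i := Nat.pow_le_pow_right hp.pos hi1
    have hN1 : 0 < (p ^ i - 1) * p ^ k := by
      have h3 : 0 < p ^ i - 1 := by omega
      have h4 : 0 < p ^ k := pow_pos hp.pos k
      positivity
    have hNle : (((p ^ i - 1) * p ^ k : ℕ) : ℝ) ≤ (p:ℝ) ^ (I + 1) * d := by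
      have h1 : (p ^ i - 1) * p ^ k ≤ p ^ (I + 1) * d := by
        calc (p ^ i - 1) * p ^ k ≤ p ^ I * (p * d) := by
              apply Nat.mul_le_mul _ hk2
              exact (Nat.sub_le _ _).trans (Nat.pow_le_pow_right hp.pos hi2)
          _ = p ^ (I + 1) * d := by ring
      exact_mod_cast h1
    -- degree of H
    have hrθ : (r:ℝ) = θ * d := by rw [hθ]; field_simp
    have h3 : (d:ℝ) / (I + 1) ≤ θ * d / 2 := by
      rw [div_le_iff₀ (by positivity)]
      rw [div_le_iff₀ hθ0] at hIge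
      nlinarith
    have h4 : θ * d / 2 ≤ I * H.natDegree := by
      rw [hrθ] at hH3
      linarith
    have hI3 : (I:ℝ) ≤ 3 / θ := by
      have : (1:ℝ) ≤ 1 / θ := by rw [le_div_iff₀ hθ0]; linarith
      calc (I:ℝ) ≤ 2 / θ + 1 := hIlt.le
        _ ≤ 2 / θ + 1 / θ := by linarith
        _ = 3 / θ := by ring
    have h5 : θ ^ 2 / 6 * d ≤ H.natDegree := by
      have h6 : (0:ℝ) ≤ H.natDegree := by positivity
      have h7 : θ * d / 2 ≤ 3 / θ * H.natDegree := h4.trans (by gcongr)
      have h8 : θ * (θ * d / 2) ≤ θ * (3 / θ * H.natDegree) := by gcongr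
      have h9 : θ * (3 / θ * H.natDegree) = 3 * H.natDegree := by field_simp
      rw [h9] at h8
      nlinarith
    have h6 : θ ^ 2 / 9 * f'.natDegree ≤ H.natDegree * Real.log p := by
      rw [hdd]
      have h7 : (2:ℝ) / 3 ≤ Real.log p := by
        have h8 := Real.log_two_gt_d9
        have h9 : Real.log 2 ≤ Real.log p := Real.log_le_log (by norm_num) hp2
        linarith
      calc θ ^ 2 / 9 * d = (θ ^ 2 / 6 * d) * (2 / 3) := by ring
        _ ≤ H.natDegree * Real.log p := by gcongr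
    have h7 := main_monic p f' hm hi' hM' ((p ^ i - 1) * p ^ k) hN1 H hH1 hH2 (θ ^ 2 / 9)
      (by positivity) (by linarith) h6
    rw [hdd] at h7
    have hlM : 0 < Real.log (cx f').mahlerMeasure := Real.log_pos hM'
    have h8 : (θ ^ 2 / 180) ^ 5 * d ≤ ((p:ℝ) ^ (I + 1) * d) * Real.log (cx f').mahlerMeasure := by
      calc (θ ^ 2 / 180) ^ 5 * d = (θ ^ 2 / 9 / 20) ^ 5 * d := by ring
        _ ≤ _ := h7
        _ ≤ _ := by gcongr
    have h9 : (θ ^ 2 / 180) ^ 5 ≤ (p:ℝ) ^ (I + 1) * Real.log (cx f').mahlerMeasure := by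
      apply le_of_mul_le_mul_right _ hd0'
      calc (θ ^ 2 / 180) ^ 5 * d ≤ _ := h8
        _ = _ := by ring
    have h10 : (p:ℝ) ^ (I + 1) ≤ (p:ℝ) ^ (2 / θ + 2) := by
      rw [← Real.rpow_natCast]
      apply Real.rpow_le_rpow_of_exponent_le hp1.le
      push_cast
      linarith
    have h11 : (p:ℝ) ^ (2 / θ + 2) * (p:ℝ) ^ (-(2 / θ) - 2) = 1 := by
      rw [← Real.rpow_add hp0]
      norm_num
    calc (θ ^ 2 / 180) ^ 5 * (p:ℝ) ^ (-(2 / θ) - 2)
        ≤ ((p:ℝ) ^ (2 / θ + 2) * Real.log (cx f').mahlerMeasure) * (p:ℝ) ^ (-(2 / θ) - 2) := by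
          gcongr
          exact h9.trans (by gcongr)
      _ = ((p:ℝ) ^ (2 / θ + 2) * (p:ℝ) ^ (-(2 / θ) - 2)) * Real.log (cx f').mahlerMeasure := by
          ring
      _ = _ := by rw [h11, one_mul]
  · push Not at h2
    have h3 : (p:ℝ) ^ (-(2 / θ) - 2) ≤ 1 := by
      apply Real.rpow_le_one_of_one_le_of_nonpos hp1.le
      have : 0 < 2 / θ := by positivity
      linarith
    have h4 : (θ ^ 2 / 180) ^ 5 ≤ 1 / 2 := by
      calc (θ ^ 2 / 180) ^ 5 ≤ (1 / 180) ^ 5 := by gcongr
        _ ≤ 1 / 2 := by norm_num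
    have h5 : (1:ℝ) / 2 ≤ Real.log (cx f).mahlerMeasure := by
      have h6 := Real.log_two_gt_d9
      have h7 : Real.log 2 ≤ Real.log (cx f).mahlerMeasure := Real.log_le_log (by norm_num) h2
      linarith
    calc (θ ^ 2 / 180) ^ 5 * (p:ℝ) ^ (-(2 / θ) - 2) ≤ (1 / 2) * 1 := by gcongr
      _ ≤ _ := by linarith

end Pool.Agent.H252R3.Leh
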