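import Mathlib

set_option autoImplicit false

namespace Pool.Agent.H252R3.Leh

open Polynomial

lemma natCard_adjoinRoot (p : ℕ) [Fact p.Prime] (H : (ZMod p)[X]) (hH0 : H ≠ 0) :
    Nat.card (AdjoinRoot H) = p ^ H.natDegree := by
  have hfin : Module.Finite (ZMod p) (AdjoinRoot H) :=
    (AdjoinRoot.powerBasis hH0).finite
  have h1 : Module.finrank (ZMod p) (AdjoinRoot H) = H.natDegree := by
    rw [(AdjoinRoot.powerBasis hH0).finrank, AdjoinRoot.powerBasis_dim]
  rw [Module.natCard_eq_pow_finrank (K := ZMod p), h1, Nat.card_zmod]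

lemma exists_lift (p : ℕ) [Fact p.Prime] (q : (ZMod p)[X]) :
    ∃ P : ℤ[X], P.map (Int.castRingHom (ZMod p)) = q ∧ P.degree = q.degree := by
  apply Polynomial.exists_degree_eq_of_mem_lifts
  rw [Polynomial.lifts_iff_coeff_lifts]
  intro n
  exact ⟨(ZMod.intCast_surjective (q.coeff n)).choose,
    by simpa using (ZMod.intCast_surjective (q.coeff n)).choose_spec⟩

/-- the reduction map -/
noncomputable def rho (p : ℕ) (H : (ZMod p)[X]) (k : ℕ) :
    Polynomial.degreeLT ℤ k →ₗ[ℤ] AdjoinRoot H :=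
  (((AdjoinRoot.mk H).comp (Polynomial.mapRingHom (Int.castRingHom (ZMod p)))).toAddMonoidHom.comp
    (Polynomial.degreeLT ℤ k).subtype.toAddMonoidHom).toIntLinearMap

lemma rho_apply (p : ℕ) (H : (ZMod p)[X]) (k : ℕ) (P : Polynomial.degreeLT ℤ k) :
    rho p H k P = AdjoinRoot.mk H ((P : ℤ[X]).map (Int.castRingHom (ZMod p))) := rfl

lemma rho_surj (p : ℕ) [Fact p.Prime] (H : (ZMod p)[X]) (hH0 : H ≠ 0) (k : ℕ)
    (hk : H.natDegree ≤ k) : Function.Surjective (rho p H k) := by
  intro a
  obtain ⟨q, rfl⟩ := AdjoinRoot.mk_surjective a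
  obtain ⟨P, hP, hPd⟩ := exists_lift p (q % H)
  have hdeg : P.degree < k := by
    rw [hPd]
    calc (q % H).degree < H.degree := Polynomial.degree_mod_lt q hH0
      _ ≤ k := by
        rw [Polynomial.degree_eq_natDegree hH0]
        exact_mod_cast hk
  refine ⟨⟨P, Polynomial.mem_degreeLT.mpr hdeg⟩, ?_⟩
  rw [rho_apply]
  simp only [hP]
  rw [AdjoinRoot.mk_eq_mk]
  have : q % H - q = H * (-(q / H)) := by
    have := EuclideanDomain.div_add_mod q H
    linear_combination this
  rw [this]
  exact dvd_mul_right _ _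

theorem pow_dvd_resultant (p : ℕ) [Fact p.Prime] (f G : ℤ[X]) (m n : ℕ) (hf : f.natDegree ≤ m)
    (hG : G.natDegree ≤ n) (H : (ZMod p)[X]) (hH0 : H ≠ 0) (hHm : H.natDegree ≤ m + n)
    (h1 : H ∣ f.map (Int.castRingHom (ZMod p))) (h2 : H ∣ G.map (Int.castRingHom (ZMod p))) :
    (p : ℤ) ^ H.natDegree ∣ resultant f G m n := by
  by_cases hR : resultant f G m n = 0
  · rw [hR]; exact dvd_zero _
  let b₁ := (((degreeLT.basis ℤ m).prod (degreeLT.basis ℤ n)).reindex finSumFinEquiv)
  let b₂ := degreeLT.basis ℤ (m + n)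
  have hmat : (sylvesterMap f G hf hG).toMatrix b₁ b₂ = sylvester f G m n :=
    toMatrix_sylvesterMap' f G hf hG
  have hinj : Function.Injective (sylvesterMap f G hf hG) := by
    have h3 := adjSylvester_comp_sylveserMap f G hf hG
    intro x y hxy
    have h4 : (f.resultant G m n) • x = (f.resultant G m n) • y := by
      have hx := LinearMap.congr_fun h3 x
      have hy := LinearMap.congr_fun h3 y
      simp only [LinearMap.comp_apply, LinearMap.smul_apply, LinearMap.id_apply] at hx hy
      rw [← hx, ← hy, hxy]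
    exact smul_right_injective _ hR h4
  let N : Submodule ℤ (degreeLT ℤ (m+n)) := LinearMap.range (sylvesterMap f G hf hG)
  let bN : Module.Basis (Fin (m + n)) ℤ N := b₁.map (LinearEquiv.ofInjective _ hinj)
  have hcard := Submodule.natAbs_det_basis_change b₂ N bN
  have hdet : b₂.det ((↑) ∘ bN) = resultant f G m n := by
    rw [Module.Basis.det_apply, resultant, ← hmat]
    congr 1
    ext i j
    rw [Module.Basis.toMatrix_apply, LinearMap.toMatrix_apply]
    rfl
  rw [hdet] at hcard
  have hle : N ≤ LinearMap.ker (rho p H (m+n)) := by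
    rintro _ ⟨⟨A, B⟩, rfl⟩
    rw [LinearMap.mem_ker, rho_apply, AdjoinRoot.mk_eq_zero]
    simp only [sylvesterMap_apply_coe, Polynomial.map_add, Polynomial.map_mul]
    exact dvd_add (Dvd.dvd.mul_right h1 _) (Dvd.dvd.mul_right h2 _)
  have hidx : (LinearMap.ker (rho p H (m+n))).toAddSubgroup.index = p ^ H.natDegree := by
    rw [← natCard_adjoinRoot p H hH0]
    have e := (rho p H (m+n)).quotKerEquivOfSurjective (rho_surj p H hH0 _ hHm)
    exact Nat.card_congr e.toEquiv
  have hdvd : (LinearMap.ker (rho p H (m+n))).toAddSubgroup.index ∣ N.toAddSubgroup.index :=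
    AddSubgroup.index_dvd_of_le (by exact hle)
  rw [hidx] at hdvd
  have hN : N.toAddSubgroup.index = (resultant f G m n).natAbs := by
    rw [hcard]; rfl
  rw [hN] at hdvd
  have := Int.natCast_dvd.mpr hdvd
  exact_mod_cast this

end Pool.Agent.H252R3.Leh
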