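import Pool.Agent.H252R3.Leh.Idx

set_option autoImplicit false

namespace Pool.Agent.H252R3.Leh

open Polynomial

/-- the resultant -/
noncomputable def R (f G : ℤ[X]) : ℤ := resultant f G f.natDegree G.natDegree

/-- complexification -/
noncomputable abbrev cx (f : ℤ[X]) : ℂ[X] := f.map (Int.castRingHom ℂ)

lemma R_cast (f G : ℤ[X]) (hf : f.Monic) :
    ((R f G : ℤ) : ℂ) = ((cx f).roots.map (fun z => (cx G).eval z)).prod := by
  have h1 : ((R f G : ℤ) : ℂ) = resultant (cx f) (cx G) f.natDegree G.natDegree := by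
    rw [resultant_map_map]
    rfl
  have h2 : (cx f).natDegree = f.natDegree := hf.natDegree_map _
  rw [h1, ← h2, resultant_eq_prod_eval (cx f) (cx G) G.natDegree natDegree_map_le
    (IsAlgClosed.splits _)]
  have h3 : (cx f).leadingCoeff = 1 := (hf.map _).leadingCoeff
  rw [h3, one_pow, one_mul]

lemma R_mul (f A B : ℤ[X]) (hf : f.Monic) : R f (A * B) = R f A * R f B := by
  have h : ((R f (A * B) : ℤ) : ℂ) = ((R f A * R f B : ℤ) : ℂ) := by
    rw [Int.cast_mul, R_cast f _ hf, R_cast f _ hf, R_cast f _ hf, ← Multiset.prod_map_mul]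
    congr 1
    apply Multiset.map_congr rfl
    intro z _
    simp [cx, Polynomial.map_mul]
  exact_mod_cast h

lemma R_pow (f A : ℤ[X]) (hf : f.Monic) (k : ℕ) : R f (A ^ k) = R f A ^ k := by
  induction k with
  | zero =>
    have h : ((R f (A ^ 0) : ℤ) : ℂ) = ((1 : ℤ) : ℂ) := by
      rw [R_cast f _ hf]
      simp [cx]
    have h' : R f (A ^ 0) = 1 := by exact_mod_cast h
    rw [h', pow_zero]
  | succ k ih => rw [pow_succ, R_mul f _ _ hf, ih, pow_succ]

lemma pow_dvd_R (p : ℕ) [Fact p.Prime] (f G : ℤ[X]) (hf : f.Monic) (H : (ZMod p)[X])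
    (h1 : H ∣ f.map (Int.castRingHom (ZMod p))) (h2 : H ∣ G.map (Int.castRingHom (ZMod p))) :
    (p : ℤ) ^ H.natDegree ∣ R f G := by
  have hfm : (f.map (Int.castRingHom (ZMod p))).Monic := hf.map _
  have hH0 : H ≠ 0 := by
    rintro rfl
    rw [zero_dvd_iff] at h1
    exact hfm.ne_zero h1
  apply pow_dvd_resultant p f G _ _ le_rfl le_rfl H hH0 _ h1 h2
  have := Polynomial.natDegree_le_of_dvd h1 hfm.ne_zero
  rw [hf.natDegree_map] at this
  omega

lemma mahler_eq (f : ℤ[X]) (hf : f.Monic) :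
    (cx f).mahlerMeasure = ((cx f).roots.map (fun a => max 1 ‖a‖)).prod := by
  rw [mahlerMeasure_eq_leadingCoeff_mul_prod_roots, (hf.map _).leadingCoeff]
  simp

lemma R_le (f G : ℤ[X]) (hf : f.Monic) (B : ℝ) (hB : 0 ≤ B) (D : ℕ)
    (h : ∀ z : ℂ, ‖(cx G).eval z‖ ≤ B * (max 1 ‖z‖) ^ D) :
    |(R f G : ℝ)| ≤ B ^ f.natDegree * ((cx f).mahlerMeasure) ^ D := by
  have h1 : |(R f G : ℝ)| = ‖((R f G : ℤ) : ℂ)‖ := by
    rw [Complex.norm_intCast]
  have hcard : Multiset.card (cx f).roots = f.natDegree := by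
    rw [← hf.natDegree_map (Int.castRingHom ℂ)]
    exact (IsAlgClosed.splits (cx f)).natDegree_eq_card_roots.symm
  rw [h1, R_cast f G hf, mahler_eq f hf, ← hcard]
  generalize (cx f).roots = s
  induction s using Multiset.induction_on with
  | empty => simp
  | cons a s ih =>
    rw [Multiset.map_cons, Multiset.prod_cons, norm_mul, Multiset.map_cons, Multiset.prod_cons,
      Multiset.card_cons, pow_succ, mul_pow]
    have h2 := h a
    have h3 : 0 ≤ B * (max 1 ‖a‖) ^ D := by positivity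
    calc ‖(cx G).eval a‖ * ‖(Multiset.map (fun z => (cx G).eval z) s).prod‖
        ≤ (B * (max 1 ‖a‖) ^ D) *
          (B ^ Multiset.card s * (Multiset.map (fun a => max 1 ‖a‖) s).prod ^ D) :=
          mul_le_mul h2 ih (norm_nonneg _) h3
      _ = _ := by ring

lemma one_le_mahler (f : ℤ[X]) (hf : f.Monic) : 1 ≤ (cx f).mahlerMeasure := by
  rw [mahler_eq f hf]
  exact one_le_prod_max_one_norm_roots _

/-- the polynomial `X ^ k - 1` -/
noncomputable abbrev cyc (k : ℕ) : ℤ[X] := X ^ k - 1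

lemma cyc_bound (K : ℕ) (z : ℂ) : ‖(cx (cyc K)).eval z‖ ≤ 2 * (max 1 ‖z‖) ^ K := by
  have e : (cx (cyc K)).eval z = z ^ K - 1 := by simp [cx, cyc]
  rw [e]
  have h1 : (1:ℝ) ≤ (max 1 ‖z‖) ^ K := one_le_pow₀ (le_max_left _ _)
  have h2 : ‖z‖ ^ K ≤ (max 1 ‖z‖) ^ K := by
    gcongr
    exact le_max_right _ _
  calc ‖z ^ K - 1‖ ≤ ‖z ^ K‖ + ‖(1:ℂ)‖ := norm_sub_le _ _
    _ = ‖z‖ ^ K + 1 := by rw [norm_pow, norm_one]
    _ ≤ _ := by linarith

lemma jtrick (p : ℕ) [Fact p.Prime] (f : ℤ[X]) (hf : f.Monic) (N : ℕ) (H : (ZMod p)[X])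
    (h1 : H ∣ f.map (Int.castRingHom (ZMod p))) (h2 : H ∣ (X ^ N - 1 : (ZMod p)[X])) (j : ℕ) :
    (p : ℤ) ^ ((j + 1) * H.natDegree) ∣ R f (cyc (N * p ^ j)) := by
  have hp : p.Prime := Fact.out
  have hdvd : ∀ j, H ∣ (X ^ (N * p ^ j) - 1 : (ZMod p)[X]) := by
    intro j
    refine h2.trans ?_
    rw [pow_mul]
    simpa using sub_dvd_pow_sub_pow ((X : (ZMod p)[X]) ^ N) 1 (p ^ j)
  induction j with
  | zero =>
    have h3 := pow_dvd_R p f (cyc (N * p ^ 0)) hf H h1 (by
      have := hdvd 0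
      simpa [cyc] using this)
    simpa using h3
  | succ j ih =>
    set Y : ℤ[X] := X ^ (N * p ^ j) with hY
    have hfac : cyc (N * p ^ (j + 1)) = cyc (N * p ^ j) * (∑ i ∈ Finset.range p, Y ^ i) := by
      have h3 := mul_geom_sum Y p
      have h4 : Y ^ p = X ^ (N * p ^ (j + 1)) := by
        rw [hY, ← pow_mul]
        congr 1
        ring
      rw [h4] at h3
      simp only [cyc]
      rw [← h3]
    rw [hfac, R_mul f _ _ hf]
    have h5 : (p : ℤ) ^ H.natDegree ∣ R f (∑ i ∈ Finset.range p, Y ^ i) := by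
      apply pow_dvd_R p f _ hf H h1
      set Z : (ZMod p)[X] := X ^ (N * p ^ j) with hZ
      have e1 : (∑ i ∈ Finset.range p, Y ^ i).map (Int.castRingHom (ZMod p))
          = ∑ i ∈ Finset.range p, Z ^ i := by
        simp [Polynomial.map_sum, hY, hZ]
      rw [e1]
      have e2 : (Z - 1) * (∑ i ∈ Finset.range p, Z ^ i) = (Z - 1) * (Z - 1) ^ (p - 1) := by
        rw [mul_geom_sum, ← pow_succ', Nat.sub_add_cancel hp.one_le, sub_pow_char, one_pow]
      by_cases hZ1 : Z - 1 = 0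
      · have h6 : Z = 1 := sub_eq_zero.mp hZ1
        rw [h6]
        simp
      · rw [mul_left_cancel₀ hZ1 e2]
        exact dvd_pow (hdvd j) (by have := hp.two_le; omega)
    have e3 : (j + 1 + 1) * H.natDegree = (j + 1) * H.natDegree + H.natDegree := by ring
    rw [e3, pow_add]
    exact mul_dvd_mul ih h5

/-- irreducible polynomials and nonvanishing of resultants -/
lemma R_ne_zero (f G : ℤ[X]) (hf : f.Monic) (hi : Irreducible f) (hG : G ≠ 0)
    (hnd : ¬ f ∣ G) : R f G ≠ 0 := by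
  intro h0
  have hfQ : (f.map (Int.castRingHom ℚ)).Monic := hf.map _
  have h1 : resultant (f.map (Int.castRingHom ℚ)) (G.map (Int.castRingHom ℚ)) = 0 := by
    have h2 : (f.map (Int.castRingHom ℚ)).natDegree = f.natDegree := hf.natDegree_map _
    have h3 : (G.map (Int.castRingHom ℚ)).natDegree = G.natDegree :=
      natDegree_map_eq_of_injective (RingHom.injective_int _) G
    rw [h2, h3, resultant_map_map]
    unfold R at h0
    rw [h0, map_zero]
  rw [resultant_eq_zero_iff] at h1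
  have hiQ : Irreducible (f.map (Int.castRingHom ℚ)) :=
    (IsPrimitive.Int.irreducible_iff_irreducible_map_cast hf.isPrimitive).mp hi
  have h4 : f.map (Int.castRingHom ℚ) ∣ G.map (Int.castRingHom ℚ) := by
    by_contra hcon
    exact h1.2 ((Irreducible.coprime_iff_not_dvd hiQ).mpr hcon)
  apply hnd
  exact (Polynomial.map_dvd_map _ (RingHom.injective_int _) hf).mp h4

lemma R_ne_zero_of_deg (f G : ℤ[X]) (hf : f.Monic) (hi : Irreducible f) (hG : G ≠ 0)
    (hd : G.natDegree < f.natDegree) : R f G ≠ 0 :=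
  R_ne_zero f G hf hi hG (fun h => by
    have := Polynomial.natDegree_le_of_dvd h hG
    omega)

lemma R_cyc_ne_zero (f : ℤ[X]) (hf : f.Monic) (hi : Irreducible f)
    (hM : 1 < (cx f).mahlerMeasure) (K : ℕ) (hK : 0 < K) : R f (cyc K) ≠ 0 := by
  have hc : cyc K ≠ 0 := (monic_X_pow_sub_C (1:ℤ) hK.ne').ne_zero
  apply R_ne_zero f _ hf hi hc
  intro hdvd
  have h1 : cx f ∣ cx (cyc K) := Polynomial.map_dvd _ hdvd
  have h2 : ∀ z ∈ (cx f).roots, max 1 ‖z‖ = 1 := by
    intro z hz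
    have hz1 : (cx f).IsRoot z := (mem_roots'.mp hz).2
    have hz2 : (cx (cyc K)).eval z = 0 := hz1.dvd h1
    have e : (cx (cyc K)).eval z = z ^ K - 1 := by simp [cx, cyc]
    rw [e, sub_eq_zero] at hz2
    have : ‖z‖ = 1 := Complex.norm_eq_one_of_pow_eq_one hz2 hK.ne'
    rw [this, max_self]
  rw [mahler_eq f hf, Multiset.map_congr rfl h2] at hM
  simp at hM

/-- the first inequality -/
theorem ineq1 (p : ℕ) [Fact p.Prime] (f : ℤ[X]) (hf : f.Monic) (hi : Irreducible f)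
    (hM : 1 < (cx f).mahlerMeasure) (N : ℕ) (hN : 0 < N) (H : (ZMod p)[X])
    (h1 : H ∣ f.map (Int.castRingHom (ZMod p))) (h2 : H ∣ (X ^ N - 1 : (ZMod p)[X])) (j : ℕ) :
    (p : ℝ) ^ ((j + 1) * H.natDegree) ≤ 2 ^ f.natDegree * ((cx f).mahlerMeasure) ^ (N * p ^ j) := by
  have hp : p.Prime := Fact.out
  have hK : 0 < N * p ^ j := by
    have := hp.pos
    positivity
  have h3 := R_cyc_ne_zero f hf hi hM _ hK
  have h4 := jtrick p f hf N H h1 h2 j
  have h5 := Int.le_of_dvd (abs_pos.mpr h3) ((dvd_abs _ _).mpr h4)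
  have h6 := R_le f (cyc (N * p ^ j)) hf 2 (by norm_num) (N * p ^ j) (cyc_bound _)
  have h7 : ((p : ℝ) ^ ((j + 1) * H.natDegree)) ≤ |(R f (cyc (N * p ^ j)) : ℝ)| := by
    exact_mod_cast h5
  exact h7.trans h6

end Pool.Agent.H252R3.Leh
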