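import Pool.Agent.H252R3.Leh.Res

set_option autoImplicit false

namespace Pool.Agent.H252R3.Leh

open Polynomial

section
attribute [local instance] Matrix.seminormedAddCommGroup

lemma siegel (s n : ℕ) (hs : 0 < s) (hsn : s < n) : ∃ T : ℤ[X], T ≠ 0 ∧ T.natDegree < n ∧
    (X - 1) ^ s ∣ T ∧
    ∀ i, |(T.coeff i : ℝ)| ≤ ((n : ℝ) * (n : ℝ) ^ s) ^ ((s : ℝ) / ((n : ℝ) - s)) := by
  classical
  let A : Matrix (Fin s) (Fin n) ℤ := Matrix.of fun k i => (Nat.choose i.val k.val : ℤ)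
  have hn1 : 1 ≤ n := by omega
  have hn1' : (1 : ℝ) ≤ n := by exact_mod_cast hn1
  have hA : ‖A‖ ≤ (n : ℝ) ^ s := by
    rw [Matrix.norm_le_iff (by positivity)]
    intro k i
    simp only [A, Matrix.of_apply]
    rw [Int.norm_eq_abs]
    have h1 : Nat.choose i.val k.val ≤ n ^ s := by
      calc Nat.choose i.val k.val ≤ i.val ^ k.val := Nat.choose_le_pow _ _
        _ ≤ n ^ k.val := Nat.pow_le_pow_left i.isLt.le _
        _ ≤ n ^ s := Nat.pow_le_pow_right hn1 k.isLt.le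
    have h2 : |((Nat.choose i.val k.val : ℤ) : ℝ)| = (Nat.choose i.val k.val : ℝ) := by
      rw [Int.cast_natCast, abs_of_nonneg (by positivity)]
    rw [h2]
    exact_mod_cast h1
  obtain ⟨t, ht0, hAt, htn⟩ := Int.Matrix.exists_ne_zero_int_vec_norm_le A
    (by simpa using hsn) (by simpa using hs)
  simp only [Fintype.card_fin] at htn
  let T : ℤ[X] := ∑ i : Fin n, monomial i.val (t i)
  have hcoeff : ∀ j, T.coeff j = if h : j < n then t ⟨j, h⟩ else 0 := by
    intro j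
    simp only [T, finset_sum_coeff, coeff_monomial]
    by_cases h : j < n
    · rw [dif_pos h, Finset.sum_eq_single (⟨j, h⟩ : Fin n)]
      · simp
      · intro b _ hb
        rw [if_neg]
        intro h2
        apply hb
        exact Fin.ext h2
      · intro h2
        exact absurd (Finset.mem_univ _) h2
    · rw [dif_neg h]
      apply Finset.sum_eq_zero
      intro i _
      rw [if_neg]
      intro h2
      exact h (h2 ▸ i.isLt)
  refine ⟨T, ?_, ?_, ?_, ?_⟩
  · intro hT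
    apply ht0
    funext i
    have := hcoeff i.val
    rw [hT, dif_pos i.isLt] at this
    simpa using this.symm
  · rw [Nat.lt_iff_le_pred (by omega)]
    rw [natDegree_le_iff_coeff_eq_zero]
    intro j hj
    rw [hcoeff, dif_neg]
    change n - 1 < j at hj
    omega
  · have h1 : (X - 1 : ℤ[X]) = X - C 1 := by simp
    rw [h1, X_sub_C_pow_dvd_iff, ← taylor_apply, X_pow_dvd_iff]
    intro k hk
    rw [taylor_coeff]
    have h2 : (hasseDeriv k T).eval 1 = ∑ i : Fin n, (Nat.choose i.val k : ℤ) * t i := by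
      simp only [T, map_sum, hasseDeriv_monomial, eval_finset_sum, eval_monomial, one_pow,
        mul_one]
    rw [h2]
    have h3 := congrFun hAt ⟨k, hk⟩
    simpa [A, Matrix.mulVec, dotProduct] using h3
  · intro j
    have hpos : (0:ℝ) ≤ ((n : ℝ) * (n : ℝ) ^ s) ^ ((s : ℝ) / ((n : ℝ) - s)) := by positivity
    rw [hcoeff]
    split_ifs with h
    · have h1 : |((t ⟨j, h⟩ : ℤ) : ℝ)| ≤ ‖t‖ := by
        have := norm_le_pi_norm t ⟨j, h⟩
        rwa [Int.norm_eq_abs] at this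
      have hexp : (0:ℝ) ≤ (s : ℝ) / ((n : ℝ) - s) := by
        have : (s : ℝ) ≤ n := by exact_mod_cast hsn.le
        have : (0:ℝ) ≤ (n : ℝ) - s := by linarith
        positivity
      have h2 : max 1 ‖A‖ ≤ (n : ℝ) ^ s := max_le (one_le_pow₀ hn1') hA
      calc |((t ⟨j, h⟩ : ℤ) : ℝ)| ≤ ‖t‖ := h1
        _ ≤ _ := htn
        _ ≤ _ := by gcongr
    · simpa using hpos

end

lemma expand_bound (T : ℤ[X]) (n N : ℕ) (hT : T.natDegree < n) (Hg : ℝ)
    (hHg : ∀ i, |(T.coeff i : ℝ)| ≤ Hg) (d : ℕ) (hd : N * (n - 1) ≤ d) (z : ℂ) :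
    ‖(cx (expand ℤ N T)).eval z‖ ≤ (n * Hg) * (max 1 ‖z‖) ^ d := by
  have hHg0 : 0 ≤ Hg := (abs_nonneg _).trans (hHg 0)
  have e1 : (cx (expand ℤ N T)).eval z = ∑ i ∈ Finset.range n, ((T.coeff i : ℤ) : ℂ) * (z ^ N) ^ i := by
    have h1 : (cx (expand ℤ N T)).eval z = (cx T).eval (z ^ N) := by
      rw [cx, map_expand, expand_eval]
    rw [h1, eval_eq_sum_range' (lt_of_le_of_lt natDegree_map_le hT)]
    apply Finset.sum_congr rfl
    intro i _
    rw [coeff_map]
    simp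
  rw [e1]
  calc ‖∑ i ∈ Finset.range n, ((T.coeff i : ℤ) : ℂ) * (z ^ N) ^ i‖
      ≤ ∑ i ∈ Finset.range n, ‖((T.coeff i : ℤ) : ℂ) * (z ^ N) ^ i‖ := norm_sum_le _ _
    _ ≤ ∑ i ∈ Finset.range n, Hg * (max 1 ‖z‖) ^ d := by
        apply Finset.sum_le_sum
        intro i hi
        rw [Finset.mem_range] at hi
        rw [norm_mul, norm_pow, norm_pow, Complex.norm_intCast, ← pow_mul]
        have h1 : ‖z‖ ^ (N * i) ≤ (max 1 ‖z‖) ^ d := by
          calc ‖z‖ ^ (N * i) ≤ (max 1 ‖z‖) ^ (N * i) := by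
                gcongr
                exact le_max_right _ _
            _ ≤ (max 1 ‖z‖) ^ d := by
                apply pow_le_pow_right₀ (le_max_left _ _)
                refine le_trans ?_ hd
                apply Nat.mul_le_mul_left
                omega
        exact mul_le_mul (hHg i) h1 (by positivity) hHg0
    _ = _ := by
        rw [Finset.sum_const, Finset.card_range, nsmul_eq_mul]
        ring

/-- the second inequality -/
theorem ineq2 (p : ℕ) [Fact p.Prime] (f : ℤ[X]) (hf : f.Monic) (hi : Irreducible f)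
    (N : ℕ) (hN : 0 < N) (H : (ZMod p)[X])
    (h1 : H ∣ f.map (Int.castRingHom (ZMod p))) (h2 : H ∣ (X ^ N - 1 : (ZMod p)[X]))
    (s n : ℕ) (hs : 0 < s) (hsn : s < n) (hn : N * (n - 1) < f.natDegree) :
    (p : ℝ) ^ (s * H.natDegree) ≤
      ((n : ℝ) * ((n : ℝ) * (n : ℝ) ^ s) ^ ((s : ℝ) / ((n : ℝ) - s)) * (cx f).mahlerMeasure)
        ^ f.natDegree := by
  obtain ⟨T, hT0, hTd, hTdvd, hTc⟩ := siegel s n hs hsn
  have hE0 : expand ℤ N T ≠ 0 := (expand_ne_zero hN).mpr hT0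
  have hEd : (expand ℤ N T).natDegree < f.natDegree := by
    rw [natDegree_expand]
    refine lt_of_le_of_lt ?_ hn
    rw [mul_comm]
    apply Nat.mul_le_mul_left
    omega
  have h3 := R_ne_zero_of_deg f (expand ℤ N T) hf hi hE0 hEd
  obtain ⟨U, hU⟩ := hTdvd
  have hE : expand ℤ N T = (cyc N) ^ s * expand ℤ N U := by
    rw [hU, map_mul, map_pow]
    congr 2
    simp [cyc]
  have h4 : (p : ℤ) ^ (s * H.natDegree) ∣ R f (expand ℤ N T) := by
    rw [hE, R_mul f _ _ hf, R_pow f _ hf, mul_comm s, pow_mul]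
    apply Dvd.dvd.mul_right
    apply pow_dvd_pow_of_dvd
    apply pow_dvd_R p f _ hf H h1
    simpa [cyc] using h2
  have h5 := Int.le_of_dvd (abs_pos.mpr h3) ((dvd_abs _ _).mpr h4)
  have h6 := R_le f (expand ℤ N T) hf
    ((n : ℝ) * ((n : ℝ) * (n : ℝ) ^ s) ^ ((s : ℝ) / ((n : ℝ) - s))) (by positivity) f.natDegree
    (expand_bound T n N hTd _ hTc f.natDegree hn.le)
  have h7 : ((p : ℝ) ^ (s * H.natDegree)) ≤ |(R f (expand ℤ N T) : ℝ)| := by
    exact_mod_cast h5
  calc _ ≤ _ := h7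
    _ ≤ _ := h6
    _ = _ := by rw [← mul_pow]

end Pool.Agent.H252R3.Leh
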